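import Pool.Agent.H28.MCL.Targets
import Pool.Agent.H24.T2.LD
import Pool.Agent.H24.MR.Top

/-!
# Many clusters (`MP_c59857_nt`), row LDM: the Matomaki-Radziwill property
-/

set_option autoImplicit false

open Finset Filter Topology

namespace Pool.Agent.H48.MCL

open Pool.Agent.H28.MCL

theorem ldm (h : T_LDC) : T_LDM := by
  intro U x y hU W b ε hW hε
  obtain ⟨h₀, hh₀⟩ := Pool.Agent.H24.T2.mr_card Pool.Agent.H24.MR.mr W b ε hW hε
  refine ⟨h₀, fun m hm => ?_⟩
  obtain ⟨C, hC⟩ := hh₀ m hm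
  refine h U x y hU _ ε C 0 le_rfl fun n => ?_
  rw [zero_mul, add_zero]
  refine le_trans (le_of_eq ?_) (hC n)
  congr 2
  ext z
  simp

end Pool.Agent.H48.MCL
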